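import Pool.Agent.H.MP_5e375b_co.A

namespace Pool.Agent.Results.MP_5e375b_co.Yes

open Finset

variable {V : Type} [Fintype V]

/-- the classes of `c` on pairs form a coherent configuration -/
structure IsCoherent (c : V → V → ℕ) : Prop where
  diag : ∀ x y z, c x x = c y z → y = z
  trans : ∀ x y x' y', c x y = c x' y' → c y x = c y' x'
  reg : ∀ i j x y x' y', c x y = c x' y' →
    (univ.filter fun z => c x z = i ∧ c z y = j).card =
      (univ.filter fun z => c x' z = i ∧ c z y' = j).card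

/-- the edge set of `G` is a union of classes of `c` -/
def Refines (G : SimpleGraph V) (c : V → V → ℕ) : Prop :=
  ∀ x y x' y', c x y = c x' y' → (G.Adj x y ↔ G.Adj x' y')

/-- the classes of `c` form the coherent closure of `G` -/
def IsClosure (G : SimpleGraph V) (c : V → V → ℕ) : Prop :=
  IsCoherent c ∧ Refines G c ∧ ∀ c' : V → V → ℕ, IsCoherent c' → Refines G c' →
    ∀ x y x' y', c' x y = c' x' y' → c x y = c x' y'

/-- two fibres with three classes each and two classes between them -/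
def HasType323 (c : V → V → ℕ) : Prop :=
  ∃ s : V → Fin 2, (∀ x y, c x x = c y y ↔ s x = s y) ∧
    ∀ i j, {m | ∃ x y, s x = i ∧ s y = j ∧ c x y = m}.ncard = if i = j then 3 else 2

open H.MP_5e375b_co

def G : SimpleGraph (Fin 156) where
  Adj a b := ad a b = true
  symm := ⟨fun a b h => by rw [ad_symm]; exact h⟩
  loopless := ⟨fun a h => by simp [ad_irr] at h⟩

instance : DecidableRel G.Adj := fun a b => inferInstanceAs (Decidable (ad a b = true))

lemma adjM (x y : Fin 156) : G.adjMatrix ℝ x y = aa (cc x y) := by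
  rw [aa_cc, SimpleGraph.adjMatrix_apply]; push_cast; rfl

lemma eig (h : ℕ → ℤ) (μ : ℤ) (e : ∀ x y, ∑ z, aa (cc x z) * h (cc z y) = μ * h (cc x y))
    (h0 : h 0 ≠ 0) : Module.End.HasEigenvalue (Matrix.toLin' (G.adjMatrix ℝ)) μ := by
  refine Module.End.hasEigenvalue_of_hasEigenvector (x := fun z => h (cc z 0)) ⟨?_, fun k => ?_⟩
  · rw [Module.End.mem_eigenspace_iff]
    ext x
    simp only [Matrix.toLin'_apply, Matrix.mulVec, dotProduct, adjM, Pi.smul_apply, smul_eq_mul]
    exact_mod_cast e x 0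
  · have := congrFun k 0
    simp only [show cc 0 0 = 0 by decide +kernel, Pi.zero_apply, Int.cast_eq_zero] at this
    exact h0 this

lemma sq_cc (x y : Fin 156) : sqq (cc x y) = 4 * aa (cc x y) + (if x = y then 32 else 0) +
    18 * be (cc x 0) * be (cc y 0) := by
  have := fib_lt x; have := fib_lt y; have := rel_lt x y; have := rel_lt x 0; have := rel_lt y 0
  have f0 : fib 0 = 0 := rfl
  simp only [sqq, be, cc, ← rel0 x y, f0]
  split_ifs <;> omega

lemma spec : {μ : ℝ | Module.End.HasEigenvalue (Matrix.toLin' (G.adjMatrix ℝ)) μ} =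
    {80, 8, -4} := by
  ext μ
  simp only [Set.mem_setOf_eq, Set.mem_insert_iff, Set.mem_singleton_iff]
  constructor
  · intro h
    obtain ⟨v, hv, v0⟩ := h.exists_hasEigenvector
    rw [Module.End.mem_eigenspace_iff] at hv
    have a : ∀ x, ∑ z, (aa (cc x z) : ℝ) * v z = μ * v x := fun x => by
      simpa only [Matrix.toLin'_apply, Matrix.mulVec, dotProduct, adjM, Pi.smul_apply,
        smul_eq_mul] using congrFun hv x
    have b : ∀ x, (μ - 8) * (μ + 4) * v x =
        18 * (∑ y, (be (cc y 0) : ℝ) * v y) * be (cc x 0) := fun x => by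
      have k : ∀ y, ∑ z, (aa (cc x z) : ℝ) * aa (cc z y) = 4 * aa (cc x y) +
          (if x = y then 32 else 0) + 18 * be (cc x 0) * be (cc y 0) := fun y => by
        exact_mod_cast (e4 x y).trans (sq_cc x y)
      have : ∑ z, (aa (cc x z) : ℝ) * (μ * v z) = ∑ y, (4 * aa (cc x y) +
          (if x = y then 32 else 0) + 18 * be (cc x 0) * be (cc y 0)) * v y := by
        simp only [← k]
        simp only [← a, mul_sum, sum_mul, mul_assoc]; exact sum_comm
      simp only [add_mul, sum_add_distrib, mul_assoc, ← mul_sum, a, mul_left_comm _ μ, ite_mul,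
        zero_mul, sum_ite_eq, mem_univ, if_true] at this
      linear_combination this
    obtain ⟨x, hx⟩ := Function.ne_iff.1 v0
    have c : ∑ z, (aa (cc x z) : ℝ) * be (cc z 0) = 80 * be (cc x 0) := by exact_mod_cast e1 x 0
    have d : ∑ z, (aa (cc x z) : ℝ) * ((μ - 8) * (μ + 4) * v z) =
        (μ - 8) * (μ + 4) * (μ * v x) := by
      rw [← a, mul_sum]; exact sum_congr rfl fun _ _ => by ring
    simp only [b, mul_left_comm (aa _ : ℝ), ← mul_sum, c] at d
    have : (μ - 80) * ((μ - 8) * (μ + 4)) * v x = 0 := by linear_combination -d - 80 * b x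
    have hx' : v x ≠ 0 := hx
    simpa [hx', sub_eq_zero, add_eq_zero_iff_eq_neg] using this
  · rintro (rfl | rfl | rfl)
    · exact_mod_cast eig be 80 e1 (by decide)
    · exact_mod_cast eig de 8 e3 (by decide)
    · exact_mod_cast eig ga (-4) e2 (by decide)

lemma mv {c : V → V → ℕ} (h : IsCoherent c) {x y x' y' : V} (e : c x y = c x' y') :
    ∃ f : V ≃ V, ∀ z, c x' (f z) = c x z ∧ c (f z) y' = c z y := by
  obtain ⟨f, hf⟩ := exE (fun z => (c x z, c z y)) (fun z => (c x' z, c z y')) fun m => by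
    simpa only [Prod.ext_iff] using h.reg m.1 m.2 x y x' y' e
  exact ⟨f, fun z => Prod.ext_iff.1 (hf z)⟩

theorem result : ∃ (n : ℕ) (G : SimpleGraph (Fin n)) (_ : DecidableRel G.Adj), G.Connected ∧
    {μ : ℝ | Module.End.HasEigenvalue (Matrix.toLin' (G.adjMatrix ℝ)) μ}.ncard = 3 ∧
    ∃ c : Fin n → Fin n → ℕ, IsClosure G c ∧ HasType323 c := by
  have dec : ∀ {x y x' y'}, cc x y = cc x' y' ↔
      fib x = fib x' ∧ fib y = fib y' ∧ rel x y = rel x' y' := fun {x y x' y'} => by
    have := fib_lt x; have := fib_lt y; have := rel_lt x y; have := fib_lt x'; have := fib_lt y'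
    have := rel_lt x' y'
    unfold cc; omega
  refine ⟨156, G, inferInstance, ⟨fun x y => ?_⟩, ?_, cc, ⟨⟨fun x y z h => ?_, fun x y x' y' h => ?_,
    fun i j x y x' y' h => ?_⟩, fun x y x' y' h => ?_, fun c hc hr x y x' y' h => ?_⟩,
    fun x => ⟨fib x, fib_lt x⟩, fun x y => ?_, fun i j => ?_⟩
  · have : ∑ z, aa (cc x z) * aa (cc z y) ≠ 0 := by
      rw [e4]; unfold sqq aa be; split_ifs <;> omega
    obtain ⟨z, -, hz⟩ := exists_ne_zero_of_sum_ne_zero this
    simp only [aa_cc, mul_ite, mul_one, mul_zero, ne_eq, ite_eq_right_iff, not_forall] at hz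
    obtain ⟨h1, h2, -⟩ := hz
    exact (SimpleGraph.Adj.reachable (G := G) h2).trans (SimpleGraph.Adj.reachable h1)
  · rw [spec, Set.ncard_eq_three]; exact ⟨80, 8, -4, by norm_num, by norm_num, by norm_num, rfl⟩
  · exact (rel0 y z).1 (by rw [← (dec.1 h).2.2, rel0])
  · rw [dec] at h ⊢; exact ⟨h.2.1, h.1, by rw [rel_symm, h.2.2, rel_symm]⟩
  · obtain ⟨e, he⟩ := move h
    exact card_equiv e fun z => by simp [he z]
  · show ad x y = true ↔ ad x' y' = true
    rw [← rel1, ← rel1, (dec.1 h).2.2]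
  · have k : ∀ {x y x' y'}, c x y = c x' y' → fib x = fib x' := fun {x y x' y'} h => by
      obtain ⟨f, hf⟩ := mv hc h
      have : ∑ z, aa (cc x z) = ∑ z, aa (cc x' z) := by
        rw [← Equiv.sum_comp f fun z => aa (cc x' z)]
        refine sum_congr rfl fun z _ => ?_
        rw [aa_cc, aa_cc]; exact if_congr (hr _ _ _ _ (hf z).1).symm rfl rfl
      rw [e5 x x, e5 x' x'] at this
      have := fib_lt x; have := fib_lt x'; have := rel_lt x x; have := rel_lt x' x'
      unfold cc at *
      split_ifs at * <;> omega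
    refine dec.2 ⟨k h, k (hc.trans _ _ _ _ h), ?_⟩
    have a : x = y ↔ x' = y' := ⟨fun e => hc.diag y _ _ (e ▸ h), fun e => hc.diag y' _ _ (e ▸ h.symm)⟩
    exact if_congr a rfl (if_congr (hr _ _ _ _ h) rfl rfl)
  · rw [dec, Fin.ext_iff, (rel0 x x).2 rfl, (rel0 y y).2 rfl]; simp
  · have : {m | ∃ x y, (⟨fib x, fib_lt x⟩ : Fin 2) = i ∧ (⟨fib y, fib_lt y⟩ : Fin 2) = j ∧
        cc x y = m} = ((((range 3).filter (fun r => i = j ∨ r ≠ 0)).image
          fun r => 6 * i.val + 3 * j.val + r : Finset ℕ) : Set ℕ) := by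
      ext m
      simp only [Set.mem_setOf_eq, coe_image, coe_filter, Set.mem_image, mem_range]
      constructor
      · rintro ⟨x, y, rfl, rfl, rfl⟩
        refine ⟨rel x y, ⟨rel_lt x y, ?_⟩, rfl⟩
        by_cases e : x = y
        · left; simp [e]
        · right; exact fun k => e ((rel0 x y).1 k)
      · rintro ⟨r, ⟨h1, h2⟩, rfl⟩
        refine ⟨ra (6 * i.val + 3 * j.val + r), rb (6 * i.val + 3 * j.val + r), ?_⟩
        interval_cases r <;> revert i j <;> decide +kernel
    rw [this, Set.ncard_coe_finset]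
    clear this; revert i j; decide

end Pool.Agent.Results.MP_5e375b_co.Yes
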